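import Pool.Agent.Helper43.SF.Stmts

/-! Module GY: the second part of the expansion, summed over the antidiagonals. -/

set_option autoImplicit false

namespace Pool.Agent.Helper43.SF

open Finset Polynomial
open Pool.Agent.Helper43.OD (h)

/-- the inner difference -/
noncomputable def gy_d (t : ℕ) (p : ℕ × ℕ) : ℝ :=
  (((p.1 + p.2 + 2 : ℕ) : ℝ) / ((p.1 + 1 : ℕ) : ℝ)) ^ t
      - (((p.1 + p.2 + 2 : ℕ) : ℝ) / ((p.1 + 2 * p.2 + 3 : ℕ) : ℝ)) ^ t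

theorem gy_Y (k s : ℕ) (p : ℕ × ℕ) : Y k s p = 1 / ((p.1 + p.2 + 2 : ℕ) : ℝ) ^ k *
    ((1 / 2) * ∑ t ∈ Finset.Icc 1 s, ((k - 1 - t).choose (s - t) : ℝ) * gy_d t p) := rfl

theorem gy_d_le (s t : ℕ) (ht : t ≤ s) (p : ℕ × ℕ) :
    |gy_d t p| ≤ ((p.1 + p.2 + 2 : ℕ) : ℝ) ^ s := by
  have hm : (1 : ℝ) ≤ ((p.1 + p.2 + 2 : ℕ) : ℝ) := by
    have : 1 ≤ p.1 + p.2 + 2 := by omega
    exact_mod_cast this
  have h1 : ((p.1 + p.2 + 2 : ℕ) : ℝ) / ((p.1 + 1 : ℕ) : ℝ) ≤ ((p.1 + p.2 + 2 : ℕ) : ℝ) := by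
    apply div_le_self (by positivity)
    have : 1 ≤ p.1 + 1 := by omega
    exact_mod_cast this
  have h2 : ((p.1 + p.2 + 2 : ℕ) : ℝ) / ((p.1 + 2 * p.2 + 3 : ℕ) : ℝ) ≤
      ((p.1 + p.2 + 2 : ℕ) : ℝ) := by
    apply div_le_self (by positivity)
    have : 1 ≤ p.1 + 2 * p.2 + 3 := by omega
    exact_mod_cast this
  have h3 : (((p.1 + p.2 + 2 : ℕ) : ℝ) / ((p.1 + 1 : ℕ) : ℝ)) ^ t ≤
      ((p.1 + p.2 + 2 : ℕ) : ℝ) ^ s :=
    (pow_le_pow_left₀ (by positivity) h1 t).trans (pow_le_pow_right₀ hm ht)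
  have h4 : (((p.1 + p.2 + 2 : ℕ) : ℝ) / ((p.1 + 2 * p.2 + 3 : ℕ) : ℝ)) ^ t ≤
      ((p.1 + p.2 + 2 : ℕ) : ℝ) ^ s :=
    (pow_le_pow_left₀ (by positivity) h2 t).trans (pow_le_pow_right₀ hm ht)
  have h5 : 0 ≤ (((p.1 + p.2 + 2 : ℕ) : ℝ) / ((p.1 + 1 : ℕ) : ℝ)) ^ t := by positivity
  have h6 : 0 ≤ (((p.1 + p.2 + 2 : ℕ) : ℝ) / ((p.1 + 2 * p.2 + 3 : ℕ) : ℝ)) ^ t := by positivity
  unfold gy_d
  rw [abs_le]
  constructor <;> linarith

theorem gy_summable (k s : ℕ) (hk : s + 3 ≤ k) : Summable (Y k s) := by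
  have h0 := OD.dt_summable 2 1 le_rfl le_rfl
  set c : ℝ := ∑ t ∈ Finset.Icc 1 s, ((k - 1 - t).choose (s - t) : ℝ) with hc
  have hc0 : 0 ≤ c := by
    rw [hc]
    positivity
  refine Summable.of_norm_bounded (h0.mul_left c) ?_
  intro p
  have hm : (1 : ℝ) ≤ ((p.1 + p.2 + 2 : ℕ) : ℝ) := by
    have : 1 ≤ p.1 + p.2 + 2 := by omega
    exact_mod_cast this
  obtain ⟨m, hmdef⟩ : ∃ m : ℝ, m = ((p.1 + p.2 + 2 : ℕ) : ℝ) := ⟨_, rfl⟩
  have h1 : |∑ t ∈ Finset.Icc 1 s, ((k - 1 - t).choose (s - t) : ℝ) * gy_d t p| ≤ c * m ^ s := by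
    refine (Finset.abs_sum_le_sum_abs _ _).trans ?_
    rw [hc, Finset.sum_mul]
    refine Finset.sum_le_sum fun t ht => ?_
    rw [abs_mul, abs_of_nonneg (Nat.cast_nonneg _), hmdef]
    exact mul_le_mul_of_nonneg_left (gy_d_le s t (Finset.mem_Icc.1 ht).2 p) (Nat.cast_nonneg _)
  rw [gy_Y, Real.norm_eq_abs, abs_mul, abs_mul, ← hmdef]
  rw [← hmdef] at hm
  have hm0 : 0 < m := by linarith
  have h2 : |1 / m ^ k| = 1 / m ^ k := abs_of_nonneg (by positivity)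
  have h3 : |(1 / 2 : ℝ)| = 1 / 2 := abs_of_nonneg (by norm_num)
  rw [h2, h3]
  have h4 : 1 / m ^ k * m ^ s ≤ 1 / m ^ 3 := by
    have h5 : m ^ 3 * m ^ s ≤ m ^ k := by
      rw [← pow_add]
      exact pow_le_pow_right₀ hm (by omega)
    rw [one_div, inv_mul_le_iff₀ (by positivity), mul_one_div, le_div_iff₀ (by positivity)]
    linarith
  have h6 : 1 / m ^ 3 ≤ OD.dt 2 1 p := by
    unfold OD.dt
    rw [← hmdef]
    have h7 : ((p.2 + 1 : ℕ) : ℝ) ^ 1 ≤ m := by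
      rw [pow_one, hmdef]
      have : p.2 + 1 ≤ p.1 + p.2 + 2 := by omega
      exact_mod_cast this
    apply one_div_le_one_div_of_le (by positivity)
    have h8 : m ^ 3 = m ^ 2 * m := by ring
    rw [h8]
    exact mul_le_mul_of_nonneg_left h7 (by positivity)
  have h9 : 0 ≤ 1 / m ^ k := by positivity
  calc 1 / m ^ k * (1 / 2 * |∑ t ∈ Finset.Icc 1 s, ((k - 1 - t).choose (s - t) : ℝ) * gy_d t p|)
      ≤ 1 / m ^ k * (1 / 2 * (c * m ^ s)) := by gcongr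
    _ = c / 2 * (1 / m ^ k * m ^ s) := by ring
    _ ≤ c / 2 * (1 / m ^ 3) := by gcongr
    _ ≤ c * (1 / m ^ 3) := by
        have : 0 ≤ 1 / m ^ 3 := by positivity
        nlinarith
    _ ≤ c * OD.dt 2 1 p := by gcongr

theorem gy_anti (t j : ℕ) :
    (1 / 2 : ℝ) * ∑ p ∈ antidiagonal j, gy_d t p = G t (j + 2) := by
  have h1 : ∑ p ∈ antidiagonal j, (((p.1 + p.2 + 2 : ℕ) : ℝ) / ((p.1 + 1 : ℕ) : ℝ)) ^ t =
      ((j + 2 : ℕ) : ℝ) ^ t * h (j + 1) t := by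
    rw [Finset.Nat.sum_antidiagonal_eq_sum_range_succ_mk]
    unfold OD.h
    rw [Finset.mul_sum]
    refine Finset.sum_congr rfl fun i hi => ?_
    have hi' : i ≤ j := by
      have := Finset.mem_range.1 hi
      omega
    have e : i + (j - i) + 2 = j + 2 := by omega
    simp only [e]
    rw [div_pow, mul_one_div]
  have h2 : ∑ p ∈ antidiagonal j, (((p.1 + p.2 + 2 : ℕ) : ℝ) / ((p.1 + 2 * p.2 + 3 : ℕ) : ℝ)) ^ t =
      ((j + 2 : ℕ) : ℝ) ^ t * (h (j + 2 + (j + 1)) t - h (j + 2) t) := by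
    rw [← Finset.Nat.sum_antidiagonal_swap, Finset.Nat.sum_antidiagonal_eq_sum_range_succ_mk]
    unfold OD.h
    rw [Finset.sum_range_add, add_sub_cancel_left, Finset.mul_sum]
    refine Finset.sum_congr rfl fun i hi => ?_
    have hi' : i ≤ j := by
      have := Finset.mem_range.1 hi
      omega
    simp only [Prod.swap_prod_mk]
    have e : j - i + i + 2 = j + 2 := by omega
    have e2 : j - i + 2 * i + 3 = j + 2 + i + 1 := by omega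
    rw [e, e2, div_pow, mul_one_div]
  have h3 : h (j + 2) t = h (j + 1) t + 1 / ((j + 2 : ℕ) : ℝ) ^ t := by
    unfold OD.h
    rw [Finset.sum_range_succ]
  have h4 : h (2 * (j + 2)) t = h (j + 2 + (j + 1)) t + 1 / ((2 * (j + 2) : ℕ) : ℝ) ^ t := by
    have e : 2 * (j + 2) = (j + 2 + (j + 1)) + 1 := by omega
    rw [e]
    unfold OD.h
    rw [Finset.sum_range_succ]
  have h5 : ((j + 2 : ℕ) : ℝ) ^ t * (1 / ((j + 2 : ℕ) : ℝ) ^ t) = 1 := by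
    have : ((j + 2 : ℕ) : ℝ) ^ t ≠ 0 := by positivity
    field_simp
  have h6 : ((j + 2 : ℕ) : ℝ) ^ t * (1 / ((2 * (j + 2) : ℕ) : ℝ) ^ t) = (1 / 2) ^ t := by
    have h7 : ((2 * (j + 2) : ℕ) : ℝ) = 2 * ((j + 2 : ℕ) : ℝ) := by push_cast; ring
    rw [h7, mul_pow, one_div_pow]
    have : ((j + 2 : ℕ) : ℝ) ^ t ≠ 0 := by positivity
    field_simp
  unfold gy_d
  rw [Finset.sum_sub_distrib, h1, h2]
  unfold G
  rw [h4]
  have h8 : h (j + 1) t = h (j + 2) t - 1 / ((j + 2 : ℕ) : ℝ) ^ t := by linarith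
  rw [h8]
  linear_combination (-(1 / 2 : ℝ)) * h5 + (1 / 2 : ℝ) * h6

theorem gy_one (t : ℕ) : G t 1 = 0 := by
  unfold G OD.h
  simp [Finset.sum_range_succ]
  ring

theorem st_GY : ST_GY := by
  intro k s _ hk
  have hsum := gy_summable k s hk
  refine ⟨hsum, ?_⟩
  have h0 : HasSum (Y k s) (∑' p : ℕ × ℕ, Y k s p) := hsum.hasSum
  have h1 : HasSum (fun x : (Σ n : ℕ, antidiagonal n) => Y k s (x.2 : ℕ × ℕ))
      (∑' p : ℕ × ℕ, Y k s p) := by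
    have := (Finset.HasAntidiagonal.sigmaAntidiagonalEquivProd (A := ℕ)).hasSum_iff
      (f := Y k s) (a := ∑' p : ℕ × ℕ, Y k s p)
    exact this.2 h0
  have h2 : HasSum (fun j : ℕ => ∑ p ∈ antidiagonal j, Y k s p) (∑' p : ℕ × ℕ, Y k s p) := by
    refine h1.sigma ?_
    intro j
    have h3 := hasSum_fintype (fun x : antidiagonal j => Y k s (x : ℕ × ℕ))
    rw [Finset.sum_coe_sort (antidiagonal j) (Y k s)] at h3
    exact h3
  have h3 : ∀ j : ℕ, ∑ p ∈ antidiagonal j, Y k s p = 1 / ((j + 1 + 1 : ℕ) : ℝ) ^ k *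
      ∑ t ∈ Finset.Icc 1 s, ((k - 1 - t).choose (s - t) : ℝ) * G t (j + 1 + 1) := by
    intro j
    have h4 : ∀ p ∈ antidiagonal j, Y k s p = 1 / ((j + 1 + 1 : ℕ) : ℝ) ^ k *
        ((1 / 2) * ∑ t ∈ Finset.Icc 1 s, ((k - 1 - t).choose (s - t) : ℝ) * gy_d t p) := by
      intro p hp
      rw [gy_Y]
      have e : p.1 + p.2 + 2 = j + 1 + 1 := by
        have := Finset.HasAntidiagonal.mem_antidiagonal.1 hp
        omega
      rw [e]
    rw [Finset.sum_congr rfl h4, ← Finset.mul_sum]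
    congr 1
    rw [← Finset.mul_sum, Finset.sum_comm, Finset.mul_sum]
    refine Finset.sum_congr rfl fun t _ => ?_
    rw [← Finset.mul_sum]
    have h5 := gy_anti t j
    have e : j + 1 + 1 = j + 2 := rfl
    rw [e, ← h5]
    ring
  have h4 : HasSum (fun j : ℕ => 1 / ((j + 1 + 1 : ℕ) : ℝ) ^ k *
      ∑ t ∈ Finset.Icc 1 s, ((k - 1 - t).choose (s - t) : ℝ) * G t (j + 1 + 1))
      (∑' p : ℕ × ℕ, Y k s p) := by
    refine h2.congr_fun ?_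
    intro j
    exact (h3 j).symm
  have h5 := (hasSum_nat_add_iff (f := fun N : ℕ => 1 / ((N + 1 : ℕ) : ℝ) ^ k *
    ∑ t ∈ Finset.Icc 1 s, ((k - 1 - t).choose (s - t) : ℝ) * G t (N + 1)) 1).1 h4
  have h6 : ∑ t ∈ Finset.Icc 1 s, ((k - 1 - t).choose (s - t) : ℝ) * G t (0 + 1) = 0 := by
    refine Finset.sum_eq_zero fun t _ => ?_
    rw [zero_add, gy_one, mul_zero]
  rw [Finset.sum_range_one, h6, mul_zero, add_zero] at h5
  exact h5

end Pool.Agent.Helper43.SF
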