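import Pool.Agent.Helper43.SF.Stmts

/-! Module SEP: separation of the terms of a Dirichlet series with polynomial coefficients. -/

set_option autoImplicit false

namespace Pool.Agent.Helper43.SF

open Finset Polynomial Filter Topology
open Pool.Agent.Helper43.OD (h)

theorem sep_eval (p : ℝ[X]) (d : ℕ) (B : ℝ) (hd : p.natDegree ≤ d) (hB : ∀ j, |p.coeff j| ≤ B)
    (x : ℝ) (hx : 1 ≤ x) : |p.eval x| ≤ (d + 1) * B * x ^ d := by
  have hB0 : 0 ≤ B := (abs_nonneg _).trans (hB 0)
  rw [Polynomial.eval_eq_sum_range' (Nat.lt_succ_of_le hd)]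
  refine (Finset.abs_sum_le_sum_abs _ _).trans ?_
  have h1 : ∀ j ∈ Finset.range (d + 1), |p.coeff j * x ^ j| ≤ B * x ^ d := by
    intro j hj
    have hj' : j ≤ d := by
      have := Finset.mem_range.1 hj
      omega
    rw [abs_mul, abs_of_nonneg (by positivity : (0 : ℝ) ≤ x ^ j)]
    exact mul_le_mul (hB j) (pow_le_pow_right₀ hx hj') (by positivity) hB0
  refine (Finset.sum_le_sum h1).trans ?_
  rw [Finset.sum_const, Finset.card_range, nsmul_eq_mul]
  push_cast
  rw [mul_assoc]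

theorem sep_low (p : ℝ[X]) (hp : p ≠ 0) :
    ∃ c : ℝ, 0 < c ∧ ∀ᶠ k : ℕ in atTop, c ≤ |p.eval (k : ℝ)| := by
  by_cases hdeg : 0 < p.degree
  · have h1 := (Polynomial.abs_tendsto_atTop p hdeg).comp (tendsto_natCast_atTop_atTop (R := ℝ))
    exact ⟨1, one_pos, h1.eventually_ge_atTop 1⟩
  · have h1 := Polynomial.eq_C_of_degree_le_zero (not_lt.1 hdeg)
    have h2 : p.coeff 0 ≠ 0 := by
      intro h3
      apply hp
      rw [h1, h3, map_zero]
    refine ⟨|p.coeff 0|, abs_pos.2 h2, Eventually.of_forall fun k => ?_⟩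
    rw [h1]
    simp

theorem st_SEP : ST_SEP := by
  intro p d E C hdeg hC hinf N
  induction N using Nat.strong_induction_on with
  | _ N ih =>
    by_contra hp
    obtain ⟨c, hc, hlow⟩ := sep_low (p N) hp
    -- the bound
    have hS : Summable fun n : ℕ => 1 / ((n + 1 : ℕ) : ℝ) ^ 2 := by
      have h1 := (summable_nat_add_iff 1).2 (Real.summable_one_div_nat_pow.2 (by norm_num :
        1 < 2))
      exact h1
    set S : ℝ := ∑' n : ℕ, 1 / ((n + 1 : ℕ) : ℝ) ^ 2 with hSdef
    have hS0 : 0 ≤ S := tsum_nonneg fun n => by positivity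
    set A : ℝ := (d + 1) * |C| * S * ((N : ℝ) + 2) ^ (E + 2) with hA
    have hA0 : 0 ≤ A := by positivity
    have hbound : ∀ k : ℕ, E + 2 ≤ k → 1 ≤ k →
        HasSum (fun N : ℕ => 1 / ((N + 1 : ℕ) : ℝ) ^ k * (p N).eval (k : ℝ)) 0 →
        |(p N).eval (k : ℝ)| ≤ A * ((k : ℝ) ^ d * (((N : ℝ) + 1) / (N + 2)) ^ k) := by
      intro k hkE hk1 hk
      have hk1' : (1 : ℝ) ≤ k := by exact_mod_cast hk1
      have h1 := (hasSum_nat_add_iff' (N + 1)).2 hk
      have h2 : ∑ i ∈ Finset.range (N + 1), 1 / ((i + 1 : ℕ) : ℝ) ^ k * (p i).eval (k : ℝ) =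
          1 / ((N + 1 : ℕ) : ℝ) ^ k * (p N).eval (k : ℝ) := by
        rw [Finset.sum_range_succ, Finset.sum_eq_zero, zero_add]
        intro i hi
        rw [ih i (Finset.mem_range.1 hi)]
        simp
      rw [h2, zero_sub] at h1
      have hterm : ∀ n : ℕ, ‖1 / ((n + (N + 1) + 1 : ℕ) : ℝ) ^ k *
          (p (n + (N + 1))).eval (k : ℝ)‖ ≤
          ((d + 1) * |C| * (k : ℝ) ^ d * (1 / ((N : ℝ) + 2) ^ (k - (E + 2)))) *
            (1 / ((n + 1 : ℕ) : ℝ) ^ 2) := by
        intro n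
        obtain ⟨m, hm⟩ : ∃ m : ℝ, m = ((n + (N + 1) + 1 : ℕ) : ℝ) := ⟨_, rfl⟩
        have hm1 : (N : ℝ) + 2 ≤ m := by
          rw [hm]
          push_cast
          have : (0 : ℝ) ≤ n := Nat.cast_nonneg n
          linarith
        have hm2 : ((n + 1 : ℕ) : ℝ) ≤ m := by
          rw [hm]
          push_cast
          have : (0 : ℝ) ≤ N := Nat.cast_nonneg N
          linarith
        have hN0 : (0 : ℝ) ≤ N := Nat.cast_nonneg N
        have hm0 : 0 < m := by linarith
        have h3 : |(p (n + (N + 1))).eval (k : ℝ)| ≤ (d + 1) * (|C| * m ^ E) * (k : ℝ) ^ d := by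
          apply sep_eval _ d _ (hdeg _) _ _ hk1'
          intro j
          refine (hC _ j).trans ?_
          rw [← hm]
          exact mul_le_mul_of_nonneg_right (le_abs_self C) (by positivity)
        rw [← hm, Real.norm_eq_abs, abs_mul, abs_of_nonneg (by positivity : 0 ≤ 1 / m ^ k)]
        have h4 : m ^ k = m ^ E * (m ^ 2 * m ^ (k - (E + 2))) := by
          rw [← pow_add, ← pow_add]
          congr 1
          omega
        have h5 : 1 / m ^ k * m ^ E = 1 / m ^ 2 * (1 / m ^ (k - (E + 2))) := by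
          rw [h4]
          have : m ^ E ≠ 0 := by positivity
          have : m ^ 2 ≠ 0 := by positivity
          have : m ^ (k - (E + 2)) ≠ 0 := by positivity
          field_simp
        have h6 : 1 / m ^ 2 ≤ 1 / ((n + 1 : ℕ) : ℝ) ^ 2 := by
          apply one_div_le_one_div_of_le (by positivity)
          exact pow_le_pow_left₀ (by positivity) hm2 2
        have h7 : 1 / m ^ (k - (E + 2)) ≤ 1 / ((N : ℝ) + 2) ^ (k - (E + 2)) := by
          apply one_div_le_one_div_of_le (by positivity)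
          exact pow_le_pow_left₀ (by positivity) hm1 _
        calc 1 / m ^ k * |(p (n + (N + 1))).eval (k : ℝ)|
            ≤ 1 / m ^ k * ((d + 1) * (|C| * m ^ E) * (k : ℝ) ^ d) := by gcongr
          _ = (d + 1) * |C| * (k : ℝ) ^ d * (1 / m ^ k * m ^ E) := by ring
          _ = (d + 1) * |C| * (k : ℝ) ^ d * (1 / m ^ 2 * (1 / m ^ (k - (E + 2)))) := by rw [h5]
          _ ≤ (d + 1) * |C| * (k : ℝ) ^ d * (1 / ((n + 1 : ℕ) : ℝ) ^ 2 *
              (1 / ((N : ℝ) + 2) ^ (k - (E + 2)))) := by gcongr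
          _ = _ := by ring
      have h3 : ‖-(1 / ((N + 1 : ℕ) : ℝ) ^ k * (p N).eval (k : ℝ))‖ ≤
          ((d + 1) * |C| * (k : ℝ) ^ d * (1 / ((N : ℝ) + 2) ^ (k - (E + 2)))) * S := by
        rw [← h1.tsum_eq]
        refine tsum_of_norm_bounded ?_ hterm
        exact hS.hasSum.mul_left _
      rw [norm_neg, Real.norm_eq_abs, abs_mul,
        abs_of_nonneg (by positivity : 0 ≤ 1 / ((N + 1 : ℕ) : ℝ) ^ k), one_div,
        inv_mul_le_iff₀ (by positivity)] at h3
      refine h3.trans_eq ?_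
      rw [hA, div_pow]
      have h8 : ((N : ℝ) + 2) ^ k = ((N : ℝ) + 2) ^ (E + 2) * ((N : ℝ) + 2) ^ (k - (E + 2)) := by
        rw [← pow_add]
        congr 1
        omega
      rw [h8]
      have : ((N : ℝ) + 2) ^ (E + 2) ≠ 0 := by positivity
      have : ((N : ℝ) + 2) ^ (k - (E + 2)) ≠ 0 := by positivity
      push_cast
      field_simp
    have hlim : Tendsto (fun k : ℕ => A * ((k : ℝ) ^ d * (((N : ℝ) + 1) / (N + 2)) ^ k)) atTop
        (𝓝 0) := by
      have h1 : |((N : ℝ) + 1) / (N + 2)| < 1 := by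
        rw [abs_of_nonneg (by positivity), div_lt_one (by positivity)]
        linarith
      have h2 := (tendsto_pow_const_mul_const_pow_of_abs_lt_one d h1).const_mul A
      simpa using h2
    have hev := (hlow.and (hlim.eventually_lt_const hc)).and (eventually_ge_atTop (E + 2))
    obtain ⟨k0, hk0⟩ := eventually_atTop.1 hev
    obtain ⟨k, hkK, hk⟩ := hinf.exists_gt k0
    obtain ⟨⟨h1, h2⟩, h3⟩ := hk0 k hk.le
    have h4 := hbound k h3 (by omega) hkK
    linarith

end Pool.Agent.Helper43.SF
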